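import Mathlib

namespace Pool.Agent.Results.MP_490a28_an.LinearPotential

open Set MeasureTheory intervalIntegral

/-- `u` is a (classical, real) Dirichlet eigenfunction of `-d²/dx² + V` on `(a, b)` with
eigenvalue `lam`: it is continuous on `[a, b]`, vanishes at `a` and `b`, is twice differentiable in
`(a, b)` and satisfies `-u'' + V u = lam u` there.  (Values of `u` outside `[a, b]` play no role.) -/
def IsDirichletEigenfunction (a b : ℝ) (V u : ℝ → ℝ) (lam : ℝ) : Prop :=
  ContinuousOn u (Icc a b) ∧ u a = 0 ∧ u b = 0 ∧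
    ∀ x ∈ Ioo a b, DifferentiableAt ℝ u x ∧ DifferentiableAt ℝ (deriv u) x ∧
      -deriv (deriv u) x + V x * u x = lam * u x

/-- An admissible eigenbasis of `-d²/dx² + V` on the interval `(a, b)`: an orthonormal basis
`(u j)` of `L²(a, b)` consisting of real Dirichlet eigenfunctions, with eigenvalues `lam j` in
nondecreasing order. -/
structure IsAdmissibleEigenbasis (a b : ℝ) (V : ℝ → ℝ) (u : ℕ → ℝ → ℝ) (lam : ℕ → ℝ) :
    Prop where
  mono : Monotone lam
  eigenfunction : ∀ j, IsDirichletEigenfunction a b V (u j) (lam j)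
  orthonormal : ∀ i j, ∫ x in a..b, u i x * u j x = if i = j then 1 else 0
  complete : ∀ f : ℝ → ℝ, MemLp f 2 (volume.restrict (Ioo a b)) →
    (∀ j, ∫ x in a..b, f x * u j x = 0) → f =ᵐ[volume.restrict (Ioo a b)] 0

/-- The mean `⟨V⟩` of the potential in the state `u`. -/
noncomputable def mean (a b : ℝ) (V u : ℝ → ℝ) : ℝ := ∫ x in a..b, V x * u x ^ 2

section single

variable {u : ℝ → ℝ} {lam : ℝ}

/-- the derivative, extended continuously to `[0, 1]`. -/
lemma exists_deriv (h : IsDirichletEigenfunction 0 1 (fun x => x) u lam) :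
    ∃ w : ℝ → ℝ, ContinuousOn w (Icc 0 1) ∧ (∀ x ∈ Ioo (0 : ℝ) 1, HasDerivAt u (w x) x) ∧
      ∀ x ∈ Ioo (0 : ℝ) 1, HasDerivAt w ((x - lam) * u x) x := by
  obtain ⟨hc, h0, h1, hd⟩ := h
  have hg : ContinuousOn (fun t : ℝ => (t - lam) * u t) (Icc 0 1) :=
    (continuousOn_id.sub continuousOn_const).mul hc
  have hint : IntervalIntegrable (fun t : ℝ => (t - lam) * u t) volume 0 1 :=
    (hg.mono (by rw [uIcc_of_le zero_le_one])).intervalIntegrable
  set w : ℝ → ℝ := fun x => deriv u (1 / 2) - (∫ t in (0 : ℝ)..(1 / 2), (t - lam) * u t) +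
    ∫ t in (0 : ℝ)..x, (t - lam) * u t with hw
  have hwc : ContinuousOn w (Icc 0 1) := by
    apply ContinuousOn.add continuousOn_const
    have := intervalIntegral.continuousOn_primitive_interval' (μ := volume) (a := (0 : ℝ))
      (b₁ := 0) (b₂ := 1) hint (by simp)
    rwa [uIcc_of_le zero_le_one] at this
  have hwd : ∀ x ∈ Ioo (0 : ℝ) 1, HasDerivAt w ((x - lam) * u x) x := by
    intro x hx
    have hx' : IntervalIntegrable (fun t : ℝ => (t - lam) * u t) volume 0 x := by
      refine (hg.mono ?_).intervalIntegrable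
      rw [uIcc_of_le hx.1.le]
      exact Icc_subset_Icc le_rfl hx.2.le
    have hcx : ContinuousAt (fun t : ℝ => (t - lam) * u t) x :=
      hg.continuousAt (Icc_mem_nhds hx.1 hx.2)
    have hsm : StronglyMeasurableAtFilter (fun t : ℝ => (t - lam) * u t) (nhds x) volume :=
      (hg.mono Ioo_subset_Icc_self).stronglyMeasurableAtFilter isOpen_Ioo x hx
    have := intervalIntegral.integral_hasDerivAt_right hx' hsm hcx
    simpa [hw] using this.const_add (deriv u (1 / 2) - (∫ t in (0 : ℝ)..(1 / 2), (t - lam) * u t))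
  have heq : ∀ x ∈ Ioo (0 : ℝ) 1, w x = deriv u x := by
    have hder : ∀ x ∈ Ioo (0 : ℝ) 1, HasDerivAt (fun y => w y - deriv u y) 0 x := by
      intro x hx
      have h2 := (hd x hx).2.1.hasDerivAt
      have h3 : deriv (deriv u) x = (x - lam) * u x := by
        have := (hd x hx).2.2
        linarith
      rw [h3] at h2
      have h4 := (hwd x hx).sub h2
      rw [sub_self] at h4
      exact h4
    intro x hx
    have hconst : w x - deriv u x = w (1 / 2) - deriv u (1 / 2) := by
      have hconv : Convex ℝ (Ioo (0 : ℝ) 1) := convex_Ioo 0 1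
      refine (convex_Ioo (0 : ℝ) 1).is_const_of_fderivWithin_eq_zero (𝕜 := ℝ)
        (f := fun y => w y - deriv u y) ?_ ?_ hx (by constructor <;> norm_num)
      · intro y hy
        exact (hder y hy).differentiableAt.differentiableWithinAt
      · intro y hy
        have := (hder y hy).hasDerivWithinAt (s := Ioo (0 : ℝ) 1)
        rw [this.hasFDerivWithinAt.fderivWithin (isOpen_Ioo.uniqueDiffWithinAt hy)]
        ext
        simp
    have h12 : w (1 / 2) - deriv u (1 / 2) = 0 := by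
      simp [hw]
    linarith [hconst, h12]
  refine ⟨w, hwc, fun x hx => ?_, hwd⟩
  rw [heq x hx]
  exact (hd x hx).1.hasDerivAt

lemma multiplier {w : ℝ → ℝ} (hu : ContinuousOn u (Icc 0 1)) (hw : ContinuousOn w (Icc 0 1))
    (hud : ∀ x ∈ Ioo (0 : ℝ) 1, HasDerivAt u (w x) x)
    (hwd : ∀ x ∈ Ioo (0 : ℝ) 1, HasDerivAt w ((x - lam) * u x) x) (h0 : u 0 = 0) (h1 : u 1 = 0)
    (p p1 p2 p3 : ℝ → ℝ) (hp : ∀ x, HasDerivAt p (p1 x) x) (hp1 : ∀ x, HasDerivAt p1 (p2 x) x)
    (hp2 : ∀ x, HasDerivAt p2 (p3 x) x) (hp3 : Continuous p3) :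
    ∫ x in (0 : ℝ)..1, (2 * p1 x * (lam - x) - p x + p3 x / 2) * u x ^ 2 =
      p 1 * w 1 ^ 2 - p 0 * w 0 ^ 2 := by
  have cp : Continuous p := continuous_iff_continuousAt.2 fun x => (hp x).continuousAt
  have cp1 : Continuous p1 := continuous_iff_continuousAt.2 fun x => (hp1 x).continuousAt
  have cp2 : Continuous p2 := continuous_iff_continuousAt.2 fun x => (hp2 x).continuousAt
  have key := intervalIntegral.integral_eq_sub_of_hasDerivAt_of_le (a := (0 : ℝ)) (b := 1)
    zero_le_one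
    (f := fun x => p x * (w x ^ 2 + (lam - x) * u x ^ 2) - p1 x * (u x * w x) +
      p2 x * u x ^ 2 / 2)
    (f' := fun x => (2 * p1 x * (lam - x) - p x + p3 x / 2) * u x ^ 2) ?_ ?_ ?_
  · rw [key]
    simp only [h0, h1]
    ring
  · have c1 : ContinuousOn (fun x : ℝ => lam - x) (Icc 0 1) :=
      continuousOn_const.sub continuousOn_id
    exact ((cp.continuousOn.mul ((hw.pow 2).add (c1.mul (hu.pow 2)))).sub
      (cp1.continuousOn.mul (hu.mul hw))).add ((cp2.continuousOn.mul (hu.pow 2)).div_const 2)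
  · intro x hx
    have d1 := hud x hx
    have d2 := hwd x hx
    have d3 : HasDerivAt (fun x : ℝ => lam - x) (-1) x := by
      simpa using (hasDerivAt_id x).const_sub lam
    have e := (((hp x).mul ((d2.pow 2).add (d3.mul (d1.pow 2)))).sub
      ((hp1 x).mul (d1.mul d2))).add (((hp2 x).mul (d1.pow 2)).div_const 2)
    refine e.congr_deriv ?_
    simp only [Pi.pow_apply, Pi.add_apply, Pi.mul_apply]
    push_cast
    ring
  · apply ContinuousOn.intervalIntegrable
    rw [uIcc_of_le zero_le_one]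
    have c1 : ContinuousOn (fun x : ℝ => lam - x) (Icc 0 1) :=
      continuousOn_const.sub continuousOn_id
    exact ((((continuousOn_const.mul cp1.continuousOn).mul c1).sub cp.continuousOn).add
      (hp3.continuousOn.div_const 2)).mul (hu.pow 2)

lemma cI {f : ℝ → ℝ} (hf : ContinuousOn f (Icc 0 1)) : IntervalIntegrable f volume 0 1 := by
  apply ContinuousOn.intervalIntegrable
  rwa [uIcc_of_le zero_le_one]

lemma cpow (k : ℕ) (hu : ContinuousOn u (Icc 0 1)) :
    ContinuousOn (fun x : ℝ => x ^ k * u x ^ 2) (Icc 0 1) :=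
  (continuousOn_id.pow k).mul (hu.pow 2)

lemma moments (h : IsDirichletEigenfunction 0 1 (fun x => x) u lam)
    (hn : ∫ x in (0 : ℝ)..1, u x ^ 2 = 1) :
    (4 * lam + 3) * ((∫ x in (0 : ℝ)..1, x * u x ^ 2) - 1 / 2) =
        5 * (∫ x in (0 : ℝ)..1, x ^ 2 * u x ^ 2) - 3 / 2 ∧
      6 * lam * ((∫ x in (0 : ℝ)..1, x ^ 2 * u x ^ 2) - 1 / 3) =
        7 * (∫ x in (0 : ℝ)..1, x ^ 3 * u x ^ 2) - 3 * (∫ x in (0 : ℝ)..1, x * u x ^ 2) - 3 := by
  obtain ⟨w, hw, hud, hwd⟩ := exists_deriv h
  obtain ⟨hu, h0, h1, -⟩ := h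
  have i0 : IntervalIntegrable (fun x : ℝ => u x ^ 2) volume 0 1 := cI (hu.pow 2)
  have i1 : IntervalIntegrable (fun x : ℝ => x * u x ^ 2) volume 0 1 :=
    cI (continuousOn_id.mul (hu.pow 2))
  have i2 : IntervalIntegrable (fun x : ℝ => x ^ 2 * u x ^ 2) volume 0 1 := cI (cpow 2 hu)
  have i3 : IntervalIntegrable (fun x : ℝ => x ^ 3 * u x ^ 2) volume 0 1 := cI (cpow 3 hu)
  have e1 := multiplier hu hw hud hwd h0 h1 (fun x => x) (fun _ => 1) (fun _ => 0) (fun _ => 0)
    (fun x => hasDerivAt_id x) (fun x => hasDerivAt_const x 1) (fun x => hasDerivAt_const x 0)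
    continuous_const
  have e2 := multiplier hu hw hud hwd h0 h1 (fun x => x ^ 2) (fun x => 2 * x) (fun _ => 2)
    (fun _ => 0) (fun x => by simpa using hasDerivAt_pow 2 x)
    (fun x => by simpa using (hasDerivAt_id x).const_mul (2 : ℝ)) (fun x => hasDerivAt_const x 2)
    continuous_const
  have e3 := multiplier hu hw hud hwd h0 h1 (fun x => x ^ 3) (fun x => 3 * x ^ 2)
    (fun x => 6 * x) (fun _ => 6) (fun x => by simpa using hasDerivAt_pow 3 x)
    (fun x => by
      have := (hasDerivAt_pow 2 x).const_mul (3 : ℝ)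
      refine this.congr_deriv ?_
      push_cast
      ring)
    (fun x => by simpa using (hasDerivAt_id x).const_mul (6 : ℝ)) continuous_const
  have f1 : (∫ x in (0 : ℝ)..1, (2 * 1 * (lam - x) - x + 0 / 2) * u x ^ 2) =
      2 * lam - 3 * ∫ x in (0 : ℝ)..1, x * u x ^ 2 := by
    have : (fun x : ℝ => (2 * 1 * (lam - x) - x + 0 / 2) * u x ^ 2) =
        fun x => 2 * lam * u x ^ 2 - 3 * (x * u x ^ 2) := by
      funext x; ring
    rw [this, intervalIntegral.integral_sub (i0.const_mul _) (i1.const_mul _),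
      intervalIntegral.integral_const_mul, intervalIntegral.integral_const_mul, hn]
    ring
  have f2 : (∫ x in (0 : ℝ)..1, (2 * (2 * x) * (lam - x) - x ^ 2 + 0 / 2) * u x ^ 2) =
      4 * lam * (∫ x in (0 : ℝ)..1, x * u x ^ 2) - 5 * ∫ x in (0 : ℝ)..1, x ^ 2 * u x ^ 2 := by
    have : (fun x : ℝ => (2 * (2 * x) * (lam - x) - x ^ 2 + 0 / 2) * u x ^ 2) =
        fun x => 4 * lam * (x * u x ^ 2) - 5 * (x ^ 2 * u x ^ 2) := by
      funext x; ring
    rw [this, intervalIntegral.integral_sub (i1.const_mul _) (i2.const_mul _),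
      intervalIntegral.integral_const_mul, intervalIntegral.integral_const_mul]
  have f3 : (∫ x in (0 : ℝ)..1, (2 * (3 * x ^ 2) * (lam - x) - x ^ 3 + 6 / 2) * u x ^ 2) =
      6 * lam * (∫ x in (0 : ℝ)..1, x ^ 2 * u x ^ 2) -
        7 * (∫ x in (0 : ℝ)..1, x ^ 3 * u x ^ 2) + 3 := by
    have : (fun x : ℝ => (2 * (3 * x ^ 2) * (lam - x) - x ^ 3 + 6 / 2) * u x ^ 2) =
        fun x => 6 * lam * (x ^ 2 * u x ^ 2) - 7 * (x ^ 3 * u x ^ 2) + 3 * u x ^ 2 := by
      funext x; ring
    rw [this, intervalIntegral.integral_add ((i2.const_mul _).sub (i3.const_mul _))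
      (i0.const_mul _), intervalIntegral.integral_sub (i2.const_mul _) (i3.const_mul _),
      intervalIntegral.integral_const_mul, intervalIntegral.integral_const_mul,
      intervalIntegral.integral_const_mul, hn]
    ring
  rw [f1] at e1
  rw [f2] at e2
  rw [f3] at e3
  norm_num at e1 e2 e3
  constructor <;> linarith

lemma moment_bounds (hu : ContinuousOn u (Icc 0 1)) (hn : ∫ x in (0 : ℝ)..1, u x ^ 2 = 1)
    (k : ℕ) : 0 ≤ (∫ x in (0 : ℝ)..1, x ^ k * u x ^ 2) ∧
      (∫ x in (0 : ℝ)..1, x ^ k * u x ^ 2) ≤ 1 := by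
  constructor
  · refine intervalIntegral.integral_nonneg zero_le_one fun x hx => ?_
    have := hx.1
    positivity
  · calc (∫ x in (0 : ℝ)..1, x ^ k * u x ^ 2) ≤ ∫ x in (0 : ℝ)..1, u x ^ 2 := by
          refine intervalIntegral.integral_mono_on zero_le_one (cI (cpow k hu)) (cI (hu.pow 2)) ?_
          intro x hx
          have h1 : x ^ k ≤ 1 := pow_le_one₀ hx.1 hx.2
          show x ^ k * u x ^ 2 ≤ u x ^ 2
          nlinarith [sq_nonneg (u x)]
      _ = 1 := hn

/-- Lower bound for the eigenvalue in terms of the primitive `U` of `u`. -/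
lemma eigenvalue_lower (h : IsDirichletEigenfunction 0 1 (fun x => x) u lam)
    (hn : ∫ x in (0 : ℝ)..1, u x ^ 2 = 1) (s : ℝ) :
    2 * s - s ^ 2 * (∫ x in (0 : ℝ)..1, (∫ t in (0 : ℝ)..x, u t) ^ 2) ≤ lam := by
  obtain ⟨w, hw, hud, hwd⟩ := exists_deriv h
  obtain ⟨hu, h0, h1, -⟩ := h
  set U : ℝ → ℝ := fun x => ∫ t in (0 : ℝ)..x, u t with hU
  have hUc : ContinuousOn U (Icc 0 1) := by
    have := intervalIntegral.continuousOn_primitive_interval' (μ := volume) (a := (0 : ℝ))
      (b₁ := 0) (b₂ := 1) (cI hu) (by simp)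
    rwa [uIcc_of_le zero_le_one] at this
  have hUd : ∀ x ∈ Ioo (0 : ℝ) 1, HasDerivAt U (u x) x := by
    intro x hx
    have hx' : IntervalIntegrable u volume 0 x := by
      refine (hu.mono ?_).intervalIntegrable
      rw [uIcc_of_le hx.1.le]
      exact Icc_subset_Icc le_rfl hx.2.le
    exact intervalIntegral.integral_hasDerivAt_right hx'
      ((hu.mono Ioo_subset_Icc_self).stronglyMeasurableAtFilter isOpen_Ioo x hx)
      (hu.continuousAt (Icc_mem_nhds hx.1 hx.2))
  -- energy identity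
  have iw : IntervalIntegrable (fun x : ℝ => w x ^ 2) volume 0 1 := cI (hw.pow 2)
  have i0 : IntervalIntegrable (fun x : ℝ => u x ^ 2) volume 0 1 := cI (hu.pow 2)
  have i1 : IntervalIntegrable (fun x : ℝ => x * u x ^ 2) volume 0 1 :=
    cI (continuousOn_id.mul (hu.pow 2))
  have e1 : ∫ x in (0 : ℝ)..1, (w x ^ 2 + x * u x ^ 2 - lam * u x ^ 2) = 0 := by
    have key := intervalIntegral.integral_eq_sub_of_hasDerivAt_of_le (a := (0 : ℝ)) (b := 1)
      zero_le_one (f := fun x => u x * w x)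
      (f' := fun x => w x ^ 2 + x * u x ^ 2 - lam * u x ^ 2) (hu.mul hw) ?_ ?_
    · rw [key]; simp [h0, h1]
    · intro x hx
      refine ((hud x hx).mul (hwd x hx)).congr_deriv ?_
      ring
    · exact (iw.add i1).sub (i0.const_mul lam)
  have e1' : (∫ x in (0 : ℝ)..1, w x ^ 2) = lam - ∫ x in (0 : ℝ)..1, x * u x ^ 2 := by
    rw [intervalIntegral.integral_sub (iw.add i1) (i0.const_mul lam),
      intervalIntegral.integral_add iw i1, intervalIntegral.integral_const_mul, hn] at e1
    linarith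
  have hm1 : 0 ≤ ∫ x in (0 : ℝ)..1, x * u x ^ 2 := by
    simpa using (moment_bounds hu hn 1).1
  -- integration by parts
  have iwU : IntervalIntegrable (fun x : ℝ => w x * U x) volume 0 1 := cI (hw.mul hUc)
  have iUU : IntervalIntegrable (fun x : ℝ => U x ^ 2) volume 0 1 := cI (hUc.pow 2)
  have e2 : ∫ x in (0 : ℝ)..1, (w x * U x + u x ^ 2) = 0 := by
    have key := intervalIntegral.integral_eq_sub_of_hasDerivAt_of_le (a := (0 : ℝ)) (b := 1)
      zero_le_one (f := fun x => u x * U x) (f' := fun x => w x * U x + u x ^ 2)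
      (hu.mul hUc) ?_ ?_
    · rw [key]; simp [h0, h1]
    · intro x hx
      refine ((hud x hx).mul (hUd x hx)).congr_deriv ?_
      ring
    · exact iwU.add i0
  rw [intervalIntegral.integral_add iwU i0, hn] at e2
  have e3 : 0 ≤ ∫ x in (0 : ℝ)..1, (w x + s * U x) ^ 2 :=
    intervalIntegral.integral_nonneg zero_le_one fun x _ => sq_nonneg _
  have e4 : (∫ x in (0 : ℝ)..1, (w x + s * U x) ^ 2) =
      (∫ x in (0 : ℝ)..1, w x ^ 2) + 2 * s * (∫ x in (0 : ℝ)..1, w x * U x) +
        s ^ 2 * ∫ x in (0 : ℝ)..1, U x ^ 2 := by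
    have : (fun x : ℝ => (w x + s * U x) ^ 2) =
        fun x => w x ^ 2 + 2 * s * (w x * U x) + s ^ 2 * U x ^ 2 := by
      funext x; ring
    rw [this, intervalIntegral.integral_add (iw.add (iwU.const_mul _)) (iUU.const_mul _),
      intervalIntegral.integral_add iw (iwU.const_mul _), intervalIntegral.integral_const_mul,
      intervalIntegral.integral_const_mul]
  have e5 : (∫ x in (0 : ℝ)..1, w x * U x) = -1 := by linarith
  rw [e4, e5, e1'] at e3
  linarith

end single

section family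

variable {u : ℕ → ℝ → ℝ} {lam : ℕ → ℝ}

/-- Bessel's inequality for the indicator function of `[0, x]`. -/
lemma bessel (hu : ∀ j, ContinuousOn (u j) (Icc 0 1))
    (ho : ∀ i j, ∫ x in (0 : ℝ)..1, u i x * u j x = if i = j then 1 else 0) (N : ℕ) {x : ℝ}
    (hx : x ∈ Icc (0 : ℝ) 1) :
    ∑ j ∈ Finset.range N, (∫ t in (0 : ℝ)..x, u j t) ^ 2 ≤ x := by
  set c : ℕ → ℝ := fun j => ∫ t in (0 : ℝ)..x, u j t with hc
  set g : ℝ → ℝ := fun t => ∑ j ∈ Finset.range N, c j * u j t with hg
  have hgc : ContinuousOn g (Icc 0 1) :=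
    continuousOn_finsetSum _ fun j _ => continuousOn_const.mul (hu j)
  have I1 : ∀ {f : ℝ → ℝ}, ContinuousOn f (Icc 0 1) → IntervalIntegrable f volume 0 x := by
    intro f hf
    refine (hf.mono ?_).intervalIntegrable
    rw [uIcc_of_le hx.1]
    exact Icc_subset_Icc le_rfl hx.2
  have I2 : ∀ {f : ℝ → ℝ}, ContinuousOn f (Icc 0 1) → IntervalIntegrable f volume x 1 := by
    intro f hf
    refine (hf.mono ?_).intervalIntegrable
    rw [uIcc_of_le hx.2]
    exact Icc_subset_Icc hx.1 le_rfl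
  have hug : ∀ i ∈ Finset.range N, ∫ t in (0 : ℝ)..1, u i t * g t = c i := by
    intro i hi
    have : (fun t => u i t * g t) = fun t => ∑ j ∈ Finset.range N, c j * (u i t * u j t) := by
      funext t
      rw [hg]
      simp only [Finset.mul_sum]
      exact Finset.sum_congr rfl fun j _ => by ring
    rw [this, intervalIntegral.integral_finsetSum]
    · have h2 : ∀ j ∈ Finset.range N, (∫ t in (0 : ℝ)..1, c j * (u i t * u j t)) =
          if i = j then c j else 0 := by
        intro j _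
        rw [intervalIntegral.integral_const_mul, ho]
        split_ifs <;> simp
      rw [Finset.sum_congr rfl h2, Finset.sum_ite_eq]
      simp [hi]
    · intro j _
      exact (cI ((hu i).mul (hu j))).const_mul _
  have hgg : ∫ t in (0 : ℝ)..1, g t ^ 2 = ∑ j ∈ Finset.range N, c j ^ 2 := by
    have : (fun t => g t ^ 2) = fun t => ∑ i ∈ Finset.range N, c i * (u i t * g t) := by
      funext t
      rw [sq]
      conv_lhs => rw [hg]
      simp only [Finset.sum_mul]
      exact Finset.sum_congr rfl fun j _ => by ring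
    rw [this, intervalIntegral.integral_finsetSum]
    · refine Finset.sum_congr rfl fun i hi => ?_
      rw [intervalIntegral.integral_const_mul, hug i hi, sq]
    · intro j _
      exact (cI ((hu j).mul hgc)).const_mul _
  have hg1 : ∫ t in (0 : ℝ)..x, g t = ∑ j ∈ Finset.range N, c j ^ 2 := by
    rw [hg, intervalIntegral.integral_finsetSum]
    · refine Finset.sum_congr rfl fun j _ => ?_
      rw [intervalIntegral.integral_const_mul, sq]
    · intro j _
      exact (I1 (hu j)).const_mul _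
  have p1 : 0 ≤ ∫ t in (0 : ℝ)..x, (1 - g t) ^ 2 :=
    intervalIntegral.integral_nonneg hx.1 fun t _ => sq_nonneg _
  have p2 : 0 ≤ ∫ t in x..1, g t ^ 2 :=
    intervalIntegral.integral_nonneg hx.2 fun t _ => sq_nonneg _
  have p3 : (∫ t in (0 : ℝ)..x, (1 - g t) ^ 2) =
      x - 2 * (∫ t in (0 : ℝ)..x, g t) + ∫ t in (0 : ℝ)..x, g t ^ 2 := by
    have : (fun t => (1 - g t) ^ 2) = fun t => 1 - 2 * g t + g t ^ 2 := by
      funext t; ring
    rw [this, intervalIntegral.integral_add, intervalIntegral.integral_sub,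
      intervalIntegral.integral_const_mul]
    · simp
    · exact intervalIntegrable_const
    · exact (I1 hgc).const_mul _
    · exact intervalIntegrable_const.sub ((I1 hgc).const_mul _)
    · exact I1 (hgc.pow 2)
  have p4 : (∫ t in (0 : ℝ)..x, g t ^ 2) + (∫ t in x..1, g t ^ 2) = ∫ t in (0 : ℝ)..1, g t ^ 2 :=
    intervalIntegral.integral_add_adjacent_intervals (I1 (hgc.pow 2)) (I2 (hgc.pow 2))
  rw [p3, hg1] at p1
  rw [hgg] at p4
  linarith

lemma eigenvalue_growth (hb : IsAdmissibleEigenbasis 0 1 (fun x => x) u lam) (N : ℕ) :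
    2 * (N : ℝ) ≤ lam N := by
  have hu : ∀ j, ContinuousOn (u j) (Icc 0 1) := fun j => (hb.eigenfunction j).1
  have hn : ∀ j, ∫ x in (0 : ℝ)..1, u j x ^ 2 = 1 := by
    intro j
    have := hb.orthonormal j j
    simp only [if_true] at this
    rw [← this]
    congr 1
    funext x
    ring
  have hUc : ∀ j, ContinuousOn (fun x : ℝ => (∫ t in (0 : ℝ)..x, u j t) ^ 2) (Icc 0 1) := by
    intro j
    have := intervalIntegral.continuousOn_primitive_interval' (μ := volume) (a := (0 : ℝ))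
      (b₁ := 0) (b₂ := 1) (cI (hu j)) (by simp)
    rw [uIcc_of_le zero_le_one] at this
    exact this.pow 2
  have hB : ∑ j ∈ Finset.range (N + 1), (∫ x in (0 : ℝ)..1, (∫ t in (0 : ℝ)..x, u j t) ^ 2)
      ≤ 1 / 2 := by
    rw [← intervalIntegral.integral_finsetSum fun j _ => cI (hUc j)]
    have hid : ∫ x in (0 : ℝ)..1, x = 1 / 2 := by
      rw [integral_id]; norm_num
    rw [← hid]
    refine intervalIntegral.integral_mono_on zero_le_one ?_ intervalIntegrable_id ?_
    · exact cI (continuousOn_finsetSum _ fun j _ => hUc j)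
    · intro x hx
      exact bessel hu hb.orthonormal (N + 1) hx
  have hsum : ∑ j ∈ Finset.range (N + 1), (2 * (2 * ((N : ℝ) + 1)) - (2 * ((N : ℝ) + 1)) ^ 2 *
      (∫ x in (0 : ℝ)..1, (∫ t in (0 : ℝ)..x, u j t) ^ 2)) ≤
      ∑ j ∈ Finset.range (N + 1), lam N := by
    refine Finset.sum_le_sum fun j hj => ?_
    refine (eigenvalue_lower (hb.eigenfunction j) (hn j) (2 * ((N : ℝ) + 1))).trans ?_
    exact hb.mono (Nat.lt_succ_iff.1 (Finset.mem_range.1 hj))
  have hms : ∑ j ∈ Finset.range (N + 1), (2 * ((N : ℝ) + 1)) ^ 2 *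
      (∫ x in (0 : ℝ)..1, (∫ t in (0 : ℝ)..x, u j t) ^ 2) = (2 * ((N : ℝ) + 1)) ^ 2 *
      ∑ j ∈ Finset.range (N + 1), (∫ x in (0 : ℝ)..1, (∫ t in (0 : ℝ)..x, u j t) ^ 2) := by
    rw [Finset.mul_sum]
  rw [Finset.sum_sub_distrib, hms] at hsum
  simp only [Finset.sum_const, Finset.card_range, nsmul_eq_mul] at hsum
  push_cast at hsum
  set S := ∑ j ∈ Finset.range (N + 1), (∫ x in (0 : ℝ)..1, (∫ t in (0 : ℝ)..x, u j t) ^ 2)
  have hN : (0 : ℝ) < (N : ℝ) + 1 := by positivity
  have h3 : ((N : ℝ) + 1) * (2 * ((N : ℝ) + 1)) ≤ ((N : ℝ) + 1) * lam N := by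
    nlinarith [hsum, hB, sq_nonneg ((N : ℝ) + 1)]
  have h4 := le_of_mul_le_mul_left h3 hN
  linarith

end family

/-- The potential `V x = x` on the bounded interval `(0, 1)` is convex, and for every admissible
eigenbasis of `-d²/dx² + V` some mean `⟨V⟩_{j+1}` is strictly smaller than `⟨V⟩_j`. -/
theorem result :
    ConvexOn ℝ (Ioo 0 1) (fun x : ℝ => x) ∧
      ∀ (u : ℕ → ℝ → ℝ) (lam : ℕ → ℝ), IsAdmissibleEigenbasis 0 1 (fun x => x) u lam →
        ∃ j, mean 0 1 (fun x => x) (u (j + 1)) < mean 0 1 (fun x => x) (u j) := by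
  refine ⟨convexOn_id (convex_Ioo 0 1), ?_⟩
  intro u lam hb
  by_contra hcon
  push Not at hcon
  have hmono : Monotone fun j => mean 0 1 (fun x => x) (u j) := monotone_nat_of_le_succ hcon
  have hu : ∀ j, ContinuousOn (u j) (Icc 0 1) := fun j => (hb.eigenfunction j).1
  have hn : ∀ j, ∫ x in (0 : ℝ)..1, u j x ^ 2 = 1 := by
    intro j
    have := hb.orthonormal j j
    simp only [if_true] at this
    rw [← this]
    congr 1
    funext x
    ring
  have hm : ∀ j, mean 0 1 (fun x => x) (u j) = ∫ x in (0 : ℝ)..1, x * u j x ^ 2 := fun j => rfl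
  have h16 := eigenvalue_growth hb 16
  have key : ∀ j, 16 ≤ j → 1 / 2 < mean 0 1 (fun x => x) (u j) ∧
      (4 * lam j + 3) * (mean 0 1 (fun x => x) (u j) - 1 / 2) ≤ 7 / 2 := by
    intro j hj
    have hl : 32 ≤ lam j := by
      have := hb.mono hj
      push_cast at h16
      linarith
    obtain ⟨m1, m2⟩ := moments (hb.eigenfunction j) (hn j)
    have b1 := moment_bounds (hu j) (hn j) 1
    have b2 := moment_bounds (hu j) (hn j) 2
    have b3 := moment_bounds (hu j) (hn j) 3
    simp only [pow_one] at b1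
    rw [hm]
    set A := ∫ x in (0 : ℝ)..1, x * u j x ^ 2
    set B := ∫ x in (0 : ℝ)..1, x ^ 2 * u j x ^ 2
    set C := ∫ x in (0 : ℝ)..1, x ^ 3 * u j x ^ 2
    have hB : 3 / 10 < B := by
      by_contra hB
      push Not at hB
      nlinarith [b1.1, b1.2, b3.1, b3.2]
    constructor
    · by_contra hA
      push Not at hA
      nlinarith
    · linarith [b2.2]
  have h0 := (key 16 le_rfl).1
  set ε := mean 0 1 (fun x => x) (u 16) - 1 / 2 with hε
  have hεpos : 0 < ε := by linarith
  obtain ⟨n, hn2⟩ := exists_nat_gt (1 / ε)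
  have hnε : 1 < (n : ℝ) * ε := by
    rwa [div_lt_iff₀ hεpos] at hn2
  have hj : 16 ≤ n + 16 := by omega
  have k2 := (key (n + 16) hj).2
  have g2 := eigenvalue_growth hb (n + 16)
  have m2 := hmono hj
  simp only at m2
  push_cast at g2
  have : ε ≤ mean 0 1 (fun x => x) (u (n + 16)) - 1 / 2 := by linarith
  have hlam : 8 * (n : ℝ) ≤ 4 * lam (n + 16) + 3 := by linarith
  have hnn : (0 : ℝ) ≤ n := Nat.cast_nonneg n
  have : 8 * (n : ℝ) * ε ≤ 7 / 2 := by
    calc 8 * (n : ℝ) * ε ≤ (4 * lam (n + 16) + 3) * ε :=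
          mul_le_mul_of_nonneg_right hlam hεpos.le
      _ ≤ (4 * lam (n + 16) + 3) * (mean 0 1 (fun x => x) (u (n + 16)) - 1 / 2) :=
          mul_le_mul_of_nonneg_left this (by linarith)
      _ ≤ 7 / 2 := k2
  nlinarith

end Pool.Agent.Results.MP_490a28_an.LinearPotential
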